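import Mathlib
import Pool.Agent.helper35.Hz.Kdefs
import Pool.Agent.helper18.Hz.Braid
import Pool.Agent.helper6.Hz.C1

/-! # `CT_star` and `CT_base` (module K of MP_1b0330_gt) -/

namespace Pool.Agent.helper28.Hz

open Pool.Agent.helper35.Hz Pool.Agent.helper18.Hz

set_option linter.unusedSimpArgs false

section values
variable {g : ℕ}

theorem v_N_M1 {l i j : ℕ} (h1 : l < i) (h : i < j) (hj : j < g) :
    tauN g i j (mu g l i) = mu g l i * (nu g i j)⁻¹ := by
  have hi : i < g := by omega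
  have hl : l < g := by omega
  simp only [mu, map_mul, map_inv]
  rw [N_gb_out h hj hl (by omega), N_ga_out h hj hl (by omega), N_zr_out h hj hi.le (by omega), N_ga_i h hj]
  simp [mul_assoc]

theorem v_M_N1 {l i j : ℕ} (h1 : l < i) (h : i < j) (hj : j < g) :
    tauM g l i (nu g i j) = mu g l i * nu g i j := by
  have hi : i < g := by omega
  have hl : l < g := by omega
  simp only [nu, map_mul, map_inv]
  rw [M_gb_j h1 hi, M_zr_out h1 hi hj.le (by omega), M_ga_out h1 hi hj (by omega), M_gb_out h1 hi hj (by omega)]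
  simp [mul_assoc]

theorem v_N_M2 {i l j : ℕ} (h1 : i < l) (h : l < j) (hj : j < g) :
    tauN g i j (mu g l j) = nu g i j * mu g l j := by
  have hij : i < j := by omega
  have hi : i < g := by omega
  have hl : l < g := by omega
  simp only [mu, map_mul, map_inv]
  rw [N_gb_in hij hj h1 h, N_ga_in hij hj h1 h, N_zr_in hij hj (by omega) le_rfl, N_ga_j hij hj]
  simp [mul_assoc]

theorem v_M_N2 {i l j : ℕ} (h1 : i < l) (h : l < j) (hj : j < g) :
    tauM g l j (nu g i j) = nu g i j * (mu g l j)⁻¹ := by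
  have hij : i < j := by omega
  have hi : i < g := by omega
  have hl : l < g := by omega
  have hν : nu g i j = (gb g i)⁻¹ * zr g (i + 1) l * gz g l * zr g (l + 1) j * ga g j * gb g j * (ga g j)⁻¹ := by
    rw [nu, zr_split g (by omega : i + 1 ≤ l) h.le, zr_succ_left g h]
    simp [mul_assoc]
  rw [hν]
  simp only [gz, map_mul, map_inv]
  rw [M_gb_out h hj hi (by omega), M_zr_out h hj hl.le (by omega), M_ga_i h hj, M_gb_i h hj,
    M_zr_in h hj (by omega) le_rfl, M_ga_j h hj, M_gb_j h hj]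
  simp [mu, mul_assoc]

end values

/-- the curves of `CT` spread through a subgroup `S` -/
structure Spread (k m : ℕ) (S : Subgroup (FG m)) : Prop where
  tw : ∀ p ∈ CT k m, ∀ x ∈ S, (p.2 x = p.1 * x ∨ p.2 x = x * p.1⁻¹) → p.1 ∈ S
  b : ∀ i, (i = k - 2 ∨ i = k - 1 ∨ i = 2 * k - 2) → ∀ x ∈ S,
    (tauB m i x = x * gb m i ∨ tauB m i x = (gb m i)⁻¹ * x) → gb m i ∈ S

namespace Spread
variable {k m : ℕ} {S : Subgroup (FG m)}

theorem tA (hS : Spread k m S) {i : ℕ} (hi : i < m) {x : FG m} (hx : x ∈ S)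
    (h : tauA m i x = ga m i * x ∨ tauA m i x = x * (ga m i)⁻¹) : ga m i ∈ S :=
  hS.tw (ga m i, tauA m i) (Or.inl (Or.inl (Or.inl (Or.inl ⟨i, hi, rfl⟩)))) x hx h

theorem tN (hS : Spread k m S) {i : ℕ} (hi : i + 1 < k) {x : FG m} (hx : x ∈ S)
    (h : tauN m i (k + i) x = nu m i (k + i) * x ∨ tauN m i (k + i) x = x * (nu m i (k + i))⁻¹) :
    nu m i (k + i) ∈ S :=
  hS.tw (nu m i (k + i), tauN m i (k + i)) (Or.inl (Or.inl (Or.inr ⟨i, hi, rfl⟩))) x hx h

theorem tK (hS : Spread k m S) {i : ℕ} (hi : i + 1 < k) {x : FG m} (hx : x ∈ S)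
    (h : tauM m (k - 1) (k + i) x = mu m (k - 1) (k + i) * x ∨
      tauM m (k - 1) (k + i) x = x * (mu m (k - 1) (k + i))⁻¹) : mu m (k - 1) (k + i) ∈ S :=
  hS.tw (mu m (k - 1) (k + i), tauM m (k - 1) (k + i)) (Or.inl (Or.inr ⟨i, hi, rfl⟩)) x hx h

theorem tM (hS : Spread k m S) {j : ℕ} (hj : j + 1 < m) {x : FG m} (hx : x ∈ S)
    (h : tauM m j (j + 1) x = mu m j (j + 1) * x ∨
      tauM m j (j + 1) x = x * (mu m j (j + 1))⁻¹) : mu m j (j + 1) ∈ S :=
  hS.tw (mu m j (j + 1), tauM m j (j + 1)) (Or.inr ⟨j, hj, rfl⟩) x hx h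

/-- from `a_i` to the centre -/
theorem path (hS : Spread k m S) (hk : 2 ≤ k) (hm : m = 2 * k - 1) {i : ℕ} (hi : i + 1 < k)
    (ha : ga m i ∈ S) : gb m (k - 1) ∈ S := by
  have h1 : i < k + i := by omega
  have h2 : k + i < m := by omega
  have hn : nu m i (k + i) ∈ S := hS.tN hi ha (Or.inr (N_ga_i h1 h2))
  have hμ : mu m (k - 1) (k + i) ∈ S := hS.tK hi hn (Or.inr (v_M_N2 (by omega) (by omega) h2))
  exact hS.b (k - 1) (Or.inr (Or.inl rfl)) _ hμ (Or.inr (c1_Bi_mu (by omega) h2))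

/-- from the centre to everything -/
theorem star (hS : Spread k m S) (hk : 2 ≤ k) (hm : m = 2 * k - 1) (hb : gb m (k - 1) ∈ S) :
    ∀ p ∈ CT k m, p.1 ∈ S := by
  have hK : ∀ i, i + 1 < k → mu m (k - 1) (k + i) ∈ S := fun i hi =>
    hS.tK hi hb (Or.inl (M_gb_i (by omega) (by omega)))
  have hN : ∀ i, i + 1 < k → nu m i (k + i) ∈ S := fun i hi =>
    hS.tN hi (hK i hi) (Or.inl (v_N_M2 (by omega) (by omega) (by omega)))
  have hA : ∀ i, i < m → ga m i ∈ S := by
    intro i hi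
    by_cases h1 : i = k - 1
    · subst h1
      exact hS.tA hi hb (Or.inr (c1_A_bi hi))
    by_cases h2 : i < k
    · exact hS.tA hi (hN i (by omega)) (Or.inl (c1_Ai_nu (by omega) (by omega)))
    · obtain ⟨l, rfl⟩ : ∃ l, i = k + l := ⟨i - k, by omega⟩
      exact hS.tA hi (hN l (by omega)) (Or.inr (c1_Aj_nu (by omega) (by omega)))
  have hB : ∀ i, (i = k - 2 ∨ i = k - 1 ∨ i = 2 * k - 2) → gb m i ∈ S := fun i hi =>
    hS.b i hi _ (hA i (by omega)) (Or.inl (c1_B_ai (by omega)))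
  rintro p ((((⟨i, hi, rfl⟩ | ⟨i, hi, rfl⟩) | ⟨i, hi, rfl⟩) | ⟨i, hi, rfl⟩) | ⟨j, hj, rfl⟩)
  · exact hA i hi
  · exact hB i hi
  · exact hN i hi
  · exact hK i hi
  · -- `μ_{j,j+1}`
    show mu m j (j + 1) ∈ S
    rcases lt_trichotomy (j + 1) (k - 1) with h | h | h
    · exact hS.tM hj (hN (j + 1) (by omega)) (Or.inl (v_M_N1 (by omega) (by omega) (by omega)))
    · refine hS.tM hj hb (Or.inr ?_)
      rw [← h]
      exact M_gb_j (by omega) hj
    · by_cases h3 : j = k - 1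
      · subst h3
        have := hK 0 (by omega)
        have e : k - 1 + 1 = k + 0 := by omega
        rw [e]
        exact this
      · obtain ⟨i, hi⟩ : ∃ i, j + 1 = k + i := ⟨j + 1 - k, by omega⟩
        refine hS.tM hj (hN i (by omega)) (Or.inr ?_)
        rw [hi]
        exact v_M_N2 (by omega) (by omega) (by omega)

end Spread

theorem CT_base {k m : ℕ} (hk : 2 ≤ k) (hm : m = 2 * k - 1) (K : Subgroup (FG m))
    (hK : ∀ p ∈ CT k m, ∀ x, p.2 x ∈ K ↔ x ∈ K)
    (hbase : gb m (2 * k - 2) * ga m (2 * k - 2) * (gb m (2 * k - 2))⁻¹ ∈ K) : ∀ p ∈ CT k m, p.1 ∈ K := by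
  have hS : Spread k m K := by
    refine ⟨fun p hp x hx h => ?_, fun i hi x hx h => ?_⟩
    · have h1 := (hK p hp x).2 hx
      rcases h with h | h
      · rw [h] at h1
        exact (Subgroup.mul_mem_cancel_right K hx).1 h1
      · rw [h] at h1
        exact K.inv_mem_iff.1 ((Subgroup.mul_mem_cancel_left K hx).1 h1)
    · have h1 := (hK (gb m i, tauB m i) (Or.inl (Or.inl (Or.inl (Or.inr ⟨i, hi, rfl⟩)))) x).2 hx
      rcases h with h | h
      · rw [h] at h1
        exact (Subgroup.mul_mem_cancel_left K hx).1 h1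
      · rw [h] at h1
        exact K.inv_mem_iff.1 ((Subgroup.mul_mem_cancel_right K hx).1 h1)
  have hl : 2 * k - 2 < m := by omega
  have hT := hK (gb m (2 * k - 2), tauB m (2 * k - 2))
    (Or.inl (Or.inl (Or.inl (Or.inr ⟨2 * k - 2, Or.inr (Or.inr rfl), rfl⟩))))
  have h1 : gb m (2 * k - 2) * ga m (2 * k - 2) ∈ K := by
    have := (hT _).2 hbase
    simp only [map_mul, map_inv, c1_B_b hl, c1_B_ai hl] at this
    simpa [mul_assoc] using this
  have h2 : gb m (2 * k - 2) ∈ K := by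
    have := (hT _).2 h1
    simp only [map_mul, c1_B_b hl, c1_B_ai hl] at this
    rw [← mul_assoc] at this
    exact (Subgroup.mul_mem_cancel_left K h1).1 this
  have h3 : mu m (k - 1) (k + (k - 2)) ∈ K := by
    refine hS.tK (by omega) h2 (Or.inr ?_)
    have e : 2 * k - 2 = k + (k - 2) := by omega
    rw [e]
    exact M_gb_j (by omega) (by omega)
  have h4 : gb m (k - 1) ∈ K :=
    hS.b (k - 1) (Or.inr (Or.inl rfl)) _ h3 (Or.inr (c1_Bi_mu (by omega) (by omega)))
  exact hS.star hk hm h4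

theorem step {O : Type*} [Group O] {K' : Subgroup O} {T : MulAut O} {c' c v : O}
    (hT : ∀ x, T x ∈ K' ↔ x ∈ K')
    (hv : ∃ p ∈ K', T v = p * v ∨ T v = p * v * c'⁻¹) (h : T c = c' * c ∨ T c = c * c'⁻¹)
    (hx : v * c * v⁻¹ ∈ K') : v * c' * v⁻¹ ∈ K' := by
  obtain ⟨p, hp, hv⟩ := hv
  have h1 := (hT _).2 hx
  simp only [map_mul, map_inv] at h1
  rcases hv with hv | hv
  · rw [hv] at h1
    have h2 : v * T c * v⁻¹ ∈ K' := by
      have := K'.mul_mem (K'.mul_mem (K'.inv_mem hp) h1) hp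
      simpa [mul_assoc] using this
    rcases h with h | h
    · rw [h] at h2
      have := K'.mul_mem h2 (K'.inv_mem hx)
      simpa [mul_assoc] using this
    · rw [h] at h2
      have := K'.mul_mem (K'.inv_mem h2) hx
      simpa [mul_assoc] using this
  · rw [hv] at h1
    have h2 : v * c'⁻¹ * T c * c' * v⁻¹ ∈ K' := by
      have := K'.mul_mem (K'.mul_mem (K'.inv_mem hp) h1) hp
      simpa [mul_assoc] using this
    rcases h with h | h
    · rw [h] at h2
      have := K'.mul_mem (K'.inv_mem hx) h2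
      simpa [mul_assoc] using this
    · rw [h] at h2
      have := K'.mul_mem hx (K'.inv_mem h2)
      simpa [mul_assoc] using this

theorem stepB {O : Type*} [Group O] {K' : Subgroup O} {T : MulAut O} {c' c v : O}
    (hT : ∀ x, T x ∈ K' ↔ x ∈ K') (hv : T v = v) (h : T c = c * c' ∨ T c = c'⁻¹ * c)
    (hx : v * c * v⁻¹ ∈ K') : v * c' * v⁻¹ ∈ K' := by
  have h1 := (hT _).2 hx
  simp only [map_mul, map_inv, hv] at h1
  rcases h with h | h
  · rw [h] at h1
    have := K'.mul_mem (K'.inv_mem hx) h1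
    simpa [mul_assoc] using this
  · rw [h] at h1
    have := K'.mul_mem hx (K'.inv_mem h1)
    simpa [mul_assoc] using this

theorem form_mem {m : ℕ} {K' : Subgroup (FG m)} {T : MulAut (FG m)} {c b : FG m} (hc : c ∈ K') {α β : Bool}
    (h : T b = (if α then c else 1) * b * (if β then c⁻¹ else 1)) {v : FG m} (hv : v = b ∨ v = b⁻¹) :
    ∃ p ∈ K', T v = p * v ∨ T v = p * v * c⁻¹ := by
  rcases hv with rfl | rfl
  · cases α <;> cases β <;> simp at h
    · exact ⟨1, K'.one_mem, Or.inl (by simpa using h)⟩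
    · exact ⟨1, K'.one_mem, Or.inr (by simpa using h)⟩
    · exact ⟨c, hc, Or.inl (by simpa using h)⟩
    · exact ⟨c, hc, Or.inr (by simpa using h)⟩
  · cases α <;> cases β <;> simp at h
    · exact ⟨1, K'.one_mem, Or.inl (by simp [h])⟩
    · exact ⟨c, hc, Or.inl (by simp [h])⟩
    · exact ⟨1, K'.one_mem, Or.inr (by simp [h])⟩
    · exact ⟨c, hc, Or.inr (by simp [h, mul_assoc])⟩

/-- conjugate of a subgroup -/
def Sv {O : Type*} [Group O] (K' : Subgroup O) (v : O) : Subgroup O :=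
  K'.comap (MulAut.conj v).toMonoidHom

theorem mem_Sv {O : Type*} [Group O] {K' : Subgroup O} {v x : O} : x ∈ Sv K' v ↔ v * x * v⁻¹ ∈ K' := by
  simp [Sv]

theorem CT_star {k m : ℕ} (hk : 2 ≤ k) (hm : m = 2 * k - 1) (K' : Subgroup (FG m))
    (h1 : ∀ p ∈ CT k m, ∀ x, p.2 x ∈ K' ↔ x ∈ K') (h2 : ∀ p ∈ CT k m, p.1 ∈ K') {j : ℕ} (hj : j + 2 < k) :
    ∀ p ∈ CT k m, gb m j * p.1 * (gb m j)⁻¹ ∈ K' ∧ (gb m j)⁻¹ * p.1 * gb m j ∈ K' := by
  have hjm : j < m := by omega
  have hA : ∀ i < m, (ga m i, tauA m i) ∈ CT k m := fun i hi => Or.inl (Or.inl (Or.inl (Or.inl ⟨i, hi, rfl⟩)))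
  have hB : ∀ i, (i = k - 2 ∨ i = k - 1 ∨ i = 2 * k - 2) → (gb m i, tauB m i) ∈ CT k m :=
    fun i hi => Or.inl (Or.inl (Or.inl (Or.inr ⟨i, hi, rfl⟩)))
  have hN : ∀ i, i + 1 < k → (nu m i (k + i), tauN m i (k + i)) ∈ CT k m :=
    fun i hi => Or.inl (Or.inl (Or.inr ⟨i, hi, rfl⟩))
  have hM : ∀ i, i + 1 < m → (mu m i (i + 1), tauM m i (i + 1)) ∈ CT k m :=
    fun i hi => Or.inr ⟨i, hi, rfl⟩
  -- the conjugated subgroups spread
  have hS : ∀ v, (v = gb m j ∨ v = (gb m j)⁻¹) → Spread k m (Sv K' v) := by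
    intro v hv
    have hvB : ∀ i, tauB m i v = v := by
      intro i
      rcases hv with rfl | rfl
      · exact c1_B_b hjm
      · rw [map_inv, c1_B_b hjm]
    refine ⟨fun p hp x hx h => ?_, fun i hi x hx h => ?_⟩
    · rw [mem_Sv] at hx ⊢
      have hpv : ∃ q ∈ K', p.2 v = q * v ∨ p.2 v = q * v * p.1⁻¹ := by
        have hp2 := h2 p hp
        rcases hp with ((((⟨i, hi, rfl⟩ | ⟨i, hi, rfl⟩) | ⟨i, hi, rfl⟩) | ⟨i, hi, rfl⟩) | ⟨i, hi, rfl⟩)
        · exact form_mem hp2 (A_gb i j hjm) hv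
        · exact ⟨1, K'.one_mem, Or.inl (by simpa using hvB i)⟩
        · exact form_mem hp2 (N_gb (by omega) (by omega) j hjm) hv
        · exact form_mem hp2 (M_gb (by omega) (by omega) j hjm) hv
        · exact form_mem hp2 (M_gb (by omega) (by omega) j hjm) hv
      exact step (h1 p hp) hpv h hx
    · rw [mem_Sv] at hx ⊢
      exact stepB (h1 _ (hB i hi)) (hvB i) h hx
  have hμ0 : mu m j (j + 1) = gb m j * (ga m j)⁻¹ * (gb m j)⁻¹ * ga m (j + 1) := by
    rw [mu, zr_self]; simp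
  intro p hp
  constructor
  · have hS1 := hS (gb m j) (Or.inl rfl)
    have ha : ga m j ∈ Sv K' (gb m j) := by
      rw [mem_Sv]
      have e : gb m j * ga m j * (gb m j)⁻¹ = ga m (j + 1) * (mu m j (j + 1))⁻¹ := by
        rw [hμ0]; simp [mul_assoc]
      rw [e]
      exact K'.mul_mem (h2 _ (hA (j + 1) (by omega))) (K'.inv_mem (h2 _ (hM j (by omega))))
    exact mem_Sv.1 (hS1.star hk hm (hS1.path hk hm (by omega) ha) p hp)
  · have hS1 := hS (gb m j)⁻¹ (Or.inr rfl)
    have ha : ga m (j + 1) ∈ Sv K' (gb m j)⁻¹ := by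
      rw [mem_Sv, inv_inv]
      have hν0 := h2 _ (hN j (by omega))
      have e1 : k + (j + 1) = k + j + 1 := by omega
      have hT1 : tauM m j (j + 1) (nu m j (k + j)) =
          ((gb m j)⁻¹ * (ga m (j + 1) * (mu m j (j + 1))⁻¹ * (ga m (j + 1))⁻¹) * gb m j) * nu m j (k + j) := by
        have h : j < j + 1 := by omega
        have hj1 : j + 1 < m := by omega
        have hν : nu m j (k + j) = (gb m j)⁻¹ * gz m (j + 1) * zr m (j + 2) (k + j) * ga m (k + j) *
            gb m (k + j) * (ga m (k + j))⁻¹ := by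
          rw [nu, zr_succ_left m (by omega : j + 1 < k + j)]
          simp [mul_assoc]
        rw [hν]
        simp only [gz, map_mul, map_inv]
        rw [M_gb_i h hj1, M_ga_j h hj1, M_gb_j h hj1, M_zr_out h hj1 (by omega) (by omega),
          M_ga_out h hj1 (by omega) (by omega), M_gb_out h hj1 (by omega) (by omega)]
        simp [mul_assoc]
      have x1 : (gb m j)⁻¹ * (ga m (j + 1) * (mu m j (j + 1))⁻¹ * (ga m (j + 1))⁻¹) * gb m j ∈ K' := by
        have := (h1 _ (hM j (by omega)) _).2 hν0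
        simp only at this
        rw [hT1] at this
        exact (Subgroup.mul_mem_cancel_right K' hν0).1 this
      have x2 : (gb m j)⁻¹ * (ga m (j + 1) * (mu m j (j + 1))⁻¹ * nu m (j + 1) (k + (j + 1)) *
          (ga m (j + 1))⁻¹) * gb m j ∈ K' := by
        have := (h1 _ (hN (j + 1) (by omega)) _).2 x1
        simp only [map_mul, map_inv] at this
        rw [N_gb_out (by omega) (by omega) hjm (by omega), N_ga_i (by omega) (by omega),
          v_N_M1 (by omega) (by omega) (by omega)] at this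
        simpa [mul_assoc] using this
      have x3 : (gb m j)⁻¹ * (ga m (j + 1) * nu m (j + 1) (k + (j + 1)) * (ga m (j + 1))⁻¹) * gb m j ∈ K' := by
        have := K'.mul_mem (K'.inv_mem x1) x2
        simpa [mul_assoc] using this
      have x4 : (gb m j)⁻¹ * (nu m (j + 1) (k + (j + 1)) * (ga m (j + 1))⁻¹) * gb m j ∈ K' := by
        refine (h1 _ (hA (j + 1) (by omega)) _).1 ?_
        simp only [map_mul, map_inv]
        rw [c1_A_b hjm (by omega), c1_A_a (by omega), c1_Ai_nu (by omega) (by omega)]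
        exact x3
      have := K'.mul_mem x3 (K'.inv_mem x4)
      simpa [mul_assoc] using this
    have := mem_Sv.1 (hS1.star hk hm (hS1.path hk hm (by omega) ha) p hp)
    simpa using this

end Pool.Agent.helper28.Hz
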